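import Pool.Agent.N656.MD.Stm
import Pool.Agent.R485.RG.Mtp

/-!
# The lower bound for the Hausdorff dimension, by mass transference
-/

set_option autoImplicit false

namespace Pool.Agent.N656.MD

open Filter MeasureTheory Set Topology Pool.Agent.N656.MH

theorem freq_succ {P : ℕ → Prop} (h : ∃ᶠ n : ℕ in atTop, P n) :
    ∃ᶠ k : ℕ in atTop, P (k + 1) := by
  rw [frequently_atTop] at h ⊢
  intro N
  obtain ⟨n, hn, hP⟩ := h (N + 1)
  refine ⟨n - 1, by omega, ?_⟩
  rwa [Nat.sub_add_cancel (by omega)]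

theorem freq_of_succ {P : ℕ → Prop} (h : ∃ᶠ k : ℕ in atTop, P (k + 1)) :
    ∃ᶠ n : ℕ in atTop, P n := by
  rw [frequently_atTop] at h ⊢
  intro N
  obtain ⟨k, hk, hP⟩ := h N
  exact ⟨k + 1, by omega, hP⟩

theorem low : S_LOW := by
  intro α hα hio τ hτ a b hab
  set d : ℝ := b - a with hd
  have hd0 : 0 < d := by rw [hd]; linarith
  set t : ℝ := (1 + α) / (τ + α) with ht
  have ht0 : 0 < t := by rw [ht]; positivity
  have ht1 : t ≤ 1 := by
    rw [ht, div_le_one (by positivity)]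
    linarith
  set c : ℝ := (1 / d) ^ t with hc
  have hc0 : 0 < c := Real.rpow_pos_of_pos (by positivity) _
  have hct : c ^ (1 / t) = 1 / d := by
    rw [hc, ← Real.rpow_mul (by positivity), mul_one_div_cancel ht0.ne', Real.rpow_one]
  -- the key identity
  have key : ∀ (x : ℝ) (n : ℕ) (l : ℤ), 1 ≤ n →
      |x - ((l : ℝ) / (n : ℝ) ^ α - a) / d| * (d * (n : ℝ) ^ α) =
        |(a + d * x) * (n : ℝ) ^ α - l| := by
    intro x n l hn
    have hn0 : (0 : ℝ) < n := by exact_mod_cast hn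
    have hna : (0 : ℝ) < (n : ℝ) ^ α := Real.rpow_pos_of_pos hn0 _
    have h1 : (0 : ℝ) < d * (n : ℝ) ^ α := by positivity
    nth_rewrite 1 [← abs_of_pos h1]
    rw [← abs_mul]
    congr 1
    field_simp
    ring
  have hdim := Pool.Agent.R485.RG.dimI ht0 ht1
    (fun _ k => range fun l : ℤ => ((l : ℝ) / ((k + 1 : ℕ) : ℝ) ^ α - a) / d)
    (fun _ k => c * (((k + 1 : ℕ) : ℝ)) ^ (-(1 + α)))
    (by
      intro _ k
      have : (0 : ℝ) < ((k + 1 : ℕ) : ℝ) := by positivity
      positivity)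
    (by
      intro _
      have h1 : Tendsto (fun n : ℕ => (n : ℝ) ^ (-(1 + α))) atTop (𝓝 0) :=
        (tendsto_rpow_neg_atTop (by linarith)).comp tendsto_natCast_atTop_atTop
      have h2 := (h1.comp (tendsto_add_atTop_nat 1)).const_mul c
      rw [mul_zero] at h2
      exact h2)
    (by
      intro _
      rw [ae_iff] at hio ⊢
      have h1 : volume ((fun β : ℝ => (β - a) / d) '' {β | ¬ Io α β}) = 0 :=
        addHaar_image_eq_zero_of_differentiableOn_of_addHaar_eq_zero volume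
          (by fun_prop : Differentiable ℝ fun β : ℝ => (β - a) / d).differentiableOn hio
      refine measure_mono_null ?_ h1
      intro x hx
      refine ⟨a + d * x, ?_, by field_simp; ring⟩
      intro hI
      refine hx fun _ => ?_
      refine freq_succ (P := fun n => ∃ c' ∈ (range fun l : ℤ => ((l : ℝ) / (n : ℝ) ^ α - a) / d),
        |x - c'| < c * (n : ℝ) ^ (-(1 + α))) ?_
      refine ((hI (d * c) (by positivity)).and_eventually (eventually_ge_atTop 1)).mono ?_
      rintro n ⟨h2, hn⟩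
      have hn0 : (0 : ℝ) < n := by exact_mod_cast hn
      have hna : (0 : ℝ) < (n : ℝ) ^ α := Real.rpow_pos_of_pos hn0 _
      refine ⟨_, ⟨round ((a + d * x) * (n : ℝ) ^ α), rfl⟩, ?_⟩
      have h3 := key x n (round ((a + d * x) * (n : ℝ) ^ α)) hn
      unfold dn at h2
      rw [← h3] at h2
      have h4 : c * (n : ℝ) ^ (-(1 + α)) * ((n : ℝ) * (d * (n : ℝ) ^ α)) = d * c := by
        rw [Real.rpow_neg hn0.le, Real.rpow_add hn0, Real.rpow_one]
        field_simp
      have h5 : (0 : ℝ) < (n : ℝ) * (d * (n : ℝ) ^ α) := by positivity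
      refine lt_of_mul_lt_mul_right ?_ h5.le
      rw [h4]
      calc _ = (n : ℝ) * (|x - ((round ((a + d * x) * (n : ℝ) ^ α) : ℝ) / (n : ℝ) ^ α - a) / d| *
            (d * (n : ℝ) ^ α)) := by ring
        _ < d * c := h2)
  refine hdim.trans ?_
  have himg : {x : ℝ | x ∈ Icc (0 : ℝ) 1 ∧ ∀ _i : ℕ, ∃ᶠ k : ℕ in atTop,
      ∃ c' ∈ (range fun l : ℤ => ((l : ℝ) / ((k + 1 : ℕ) : ℝ) ^ α - a) / d),
        |x - c'| < (c * (((k + 1 : ℕ) : ℝ)) ^ (-(1 + α))) ^ (1 / t)} ⊆
      (fun β : ℝ => (β - a) / d) '' (W α τ ∩ Icc a b) := by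
    rintro x ⟨hx01, hx⟩
    have hx := hx 0
    refine ⟨a + d * x, ⟨?_, ?_, ?_⟩, by field_simp; ring⟩
    · show ∃ᶠ n : ℕ in atTop, dn ((a + d * x) * (n : ℝ) ^ α) < (n : ℝ) ^ (-τ)
      have hx' := freq_of_succ (P := fun n => ∃ c' ∈ (range fun l : ℤ =>
        ((l : ℝ) / (n : ℝ) ^ α - a) / d), |x - c'| < (c * (n : ℝ) ^ (-(1 + α))) ^ (1 / t)) hx
      refine (hx'.and_eventually (eventually_ge_atTop 1)).mono ?_
      rintro n ⟨⟨_, ⟨l, rfl⟩, hl⟩, hn⟩
      have hn0 : (0 : ℝ) < n := by exact_mod_cast hn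
      have hna : (0 : ℝ) < (n : ℝ) ^ α := Real.rpow_pos_of_pos hn0 _
      have h1 : (c * (n : ℝ) ^ (-(1 + α))) ^ (1 / t) = 1 / d * (n : ℝ) ^ (-(τ + α)) := by
        rw [Real.mul_rpow hc0.le (by positivity), hct, ← Real.rpow_mul hn0.le]
        congr 2
        rw [ht]
        field_simp
      have h2 := mul_lt_mul_of_pos_right hl (by positivity : (0 : ℝ) < d * (n : ℝ) ^ α)
      simp only [] at h2
      rw [key x n l hn, h1] at h2
      refine (round_le _ l).trans_lt (h2.trans_le (le_of_eq ?_))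
      rw [neg_add, Real.rpow_add hn0, Real.rpow_neg hn0.le α]
      field_simp
    · nlinarith [hx01.1]
    · have : d * x ≤ d * 1 := mul_le_mul_of_nonneg_left hx01.2 hd0.le
      rw [hd] at this ⊢
      linarith
  refine (dimH_mono himg).trans ?_
  exact (show ContDiff ℝ 1 (fun β : ℝ => (β - a) / d) by fun_prop).contDiffOn.dimH_image_le
    convex_univ (subset_univ _)

end Pool.Agent.N656.MD
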