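import Pool.Agent.N656.MH.Stm

/-!
# Hausdorff dimensions in the metric form of Hall's conjecture: definitions and statements
-/

set_option autoImplicit false

namespace Pool.Agent.N656.MD

open Filter MeasureTheory Set Pool.Agent.N656.MH

/-- `‖β n ^ α‖ < n ^ (-τ)` for infinitely many `n` -/
def W (α τ : ℝ) : Set ℝ := {β : ℝ | ∃ᶠ n : ℕ in atTop, dn (β * (n : ℝ) ^ α) < (n : ℝ) ^ (-τ)}

/-- `|y ^ q - lam x ^ p| < x ^ (p - p / q - τ)` for infinitely many `x` -/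
def V (p q : ℕ) (τ : ℝ) : Set ℝ := {lam : ℝ | ∃ᶠ x : ℕ in atTop, ∃ y : ℕ,
  |(y : ℝ) ^ q - lam * (x : ℝ) ^ p| < (x : ℝ) ^ ((p : ℝ) - p / q - τ)}

/-- `max (x, y) ≤ C |k| ^ κ` fails for every `C` -/
def H (κ : ℝ) : Set ℝ := {lam : ℝ | ∀ C : ℝ, ∃ᶠ x : ℕ in atTop, ∃ y : ℕ,
  (y : ℝ) ^ 2 - lam * (x : ℝ) ^ 3 ≠ 0 ∧
    C * |(y : ℝ) ^ 2 - lam * (x : ℝ) ^ 3| ^ κ < max (x : ℝ) (y : ℝ)}

/-- upper bound (covering) -/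
def S_UP : Prop := ∀ α τ : ℝ, 0 < α → 0 < τ → dimH (W α τ) ≤ ENNReal.ofReal ((1 + α) / (τ + α))

/-- lower bound (mass transference) -/
def S_LOW : Prop := ∀ α : ℝ, 1 ≤ α → (∀ᵐ β : ℝ, Io α β) → ∀ τ : ℝ, 1 ≤ τ → ∀ a b : ℝ, a < b →
  ENNReal.ofReal ((1 + α) / (τ + α)) ≤ dimH (W α τ ∩ Icc a b)

/-- from `β` to `lam`, upper bound -/
def S_VUP : Prop := ∀ p q : ℕ, 1 ≤ q → q ≤ p →
  (∀ τ : ℝ, 0 < τ →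
    dimH (W ((p : ℝ) / q) τ) ≤ ENNReal.ofReal ((1 + (p : ℝ) / q) / (τ + (p : ℝ) / q))) →
  ∀ τ : ℝ, 0 < τ → ∀ a b : ℝ, 0 < a →
    dimH (V p q τ ∩ Icc a b) ≤ ENNReal.ofReal (((p : ℝ) + q) / (q * τ + p))

/-- from `β` to `lam`, lower bound -/
def S_VLOW : Prop := ∀ p q : ℕ, 1 ≤ q → q ≤ p →
  (∀ τ : ℝ, 1 ≤ τ → ∀ a b : ℝ, a < b →
    ENNReal.ofReal ((1 + (p : ℝ) / q) / (τ + (p : ℝ) / q)) ≤ dimH (W ((p : ℝ) / q) τ ∩ Icc a b)) →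
  ∀ τ : ℝ, 1 ≤ τ → ∀ a b : ℝ, 0 < a → a < b →
    ENNReal.ofReal (((p : ℝ) + q) / (q * τ + p)) ≤ dimH (V p q τ ∩ Icc a b)

/-- Hall's inequality with the exponent `κ` -/
def S_HAL : Prop :=
  (∀ τ : ℝ, 0 < τ → ∀ a b : ℝ, 0 < a →
    dimH (V 3 2 τ ∩ Icc a b) ≤ ENNReal.ofReal (5 / (2 * τ + 3))) →
  (∀ τ : ℝ, 1 ≤ τ → ∀ a b : ℝ, 0 < a → a < b →
    ENNReal.ofReal (5 / (2 * τ + 3)) ≤ dimH (V 3 2 τ ∩ Icc a b)) →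
  ∀ κ : ℝ, 3 ≤ κ → ∀ a b : ℝ, 0 < a → a < b →
    dimH (H κ ∩ Icc a b) = ENNReal.ofReal (5 * κ / (6 * κ - 3))

end Pool.Agent.N656.MD
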